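import Pool.Agent.Helper65.BR.Goals

/-!
# Packet BR-CODE
-/

namespace Pool.Agent.Helper35.BR

open Pool.Agent.Helper65.BR
open Pool.Agent.Helper65.LinSpace Pool.Agent.Helper78.Mpc Pool.Agent.Helper28.Ram

theorem CODE : CODE_stmt := by
  intro A
  obtain ⟨eS, cS, hS⟩ := fnN_spec A.start_lin
  obtain ⟨eA, cA, hA⟩ := fnN_spec A.addr_lin
  obtain ⟨eB, cB, hB⟩ := fnN_spec A.blk_lin
  obtain ⟨eN, cN, hN⟩ := fnN_spec A.next_lin
  obtain ⟨eW, cW, hW⟩ := fnN_spec A.write_lin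
  refine ⟨eS, eA, eB, eN, eW, cS + cA + cB + cN + cW, ?_⟩
  intro P h1 h2 h3 h4 h5 hΛ hβ hMS hMZ hMH
  have key : ∀ c : ℕ, c ≤ cS + cA + cB + cN + cW → ∀ X l : ℕ, X + l + 2 ≤
      4 * (P.S + P.Z + P.H) + 20 → c * (X + l + 2) ≤ P.Λ ∧ c + P.Λ + X + l + 1 ≤ P.β := by
    intro c hc X l hX
    refine ⟨(Nat.mul_le_mul hc hX).trans hΛ, ?_⟩
    omega
  constructor
  · intro u hu
    obtain ⟨a, b⟩ := key cS (by omega) P.S u.length (by omega)
    rw [h1]; exact hS u _ _ _ _ a b hMS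
  · intro u hu
    obtain ⟨a, b⟩ := key cA (by omega) P.S u.length (by omega)
    rw [h2]; exact hA u _ _ _ _ a b hMS
  · intro u hu
    obtain ⟨a, b⟩ := key cB (by omega) P.Z u.length (by omega)
    rw [h3]; exact hB u _ _ _ _ a b hMZ
  · intro u hu
    obtain ⟨a, b⟩ := key cN (by omega) P.S u.length (by omega)
    rw [h4]; exact hN u _ _ _ _ a b hMS
  · intro u hu
    obtain ⟨a, b⟩ := key cW (by omega) P.H u.length (by omega)
    rw [h5]; exact hW u _ _ _ _ a b hMH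

end Pool.Agent.Helper35.BR
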